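import Pool.Agent.Lib.TB.Blue
import Pool.Agent.Lib.HS32.MAll

/-! Project tb33: a non-negative function with small mean values vanishes. -/

open scoped Classical Topology ContDiff ComplexOrder Matrix
open Set MeasureTheory Complex Metric Filter

noncomputable section

namespace Pool.Agent.Lib.TB

open Pool.Agent.Lib.SV (E)
open Pool.Agent.Lib.HS32 Pool.Agent.Lib.RB

namespace T10

theorem ptw {a B p A : ℝ} (h0 : 0 ≤ a) (hB : a ≤ B) (hp : p ≤ 0) (hA : 0 < A) :
    a ≤ Real.exp A * (Real.exp p * a) + B / A * -p := by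
  rcases le_total (-A) p with h | h
  · have h1 : 1 ≤ Real.exp A * Real.exp p := by
      rw [← Real.exp_add]
      exact Real.one_le_exp (by linarith)
    have h2 : 0 ≤ B / A * -p := mul_nonneg (div_nonneg (h0.trans hB) hA.le) (neg_nonneg.2 hp)
    nlinarith
  · have h1 : B ≤ B / A * -p := by
      rw [div_mul_eq_mul_div, le_div_iff₀ hA]
      exact mul_le_mul_of_nonneg_left (by linarith) (h0.trans hB)
    have h2 : 0 ≤ Real.exp A * (Real.exp p * a) := by positivity
    linarith

open Mf in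
theorem tm2 : St_TM2 := by
  intro n M _ H h Q k C g ε φ f l _ hK hh hs hQ h0 hm
  have hI := mINV n M h hh
  have hρ : M.Ten (M.ric h) := ((mHES n M).2.2.2.2.2.2.2.2.1 h hh).toTen
  obtain ⟨r1, r2, -⟩ := hI.2.2.1 _ _ (hI.2.2.2.2.2.1 Q hQ) hρ
  have r3 : M.Rep (M.ip h (fun e z => h e z * Q e z) (M.ric h))
      fun e z => (Q e z * (h e z)⁻¹ * M.ric h e z).trace.re := fun e he z hz =>
    (r1 e he z hz).trans (congrArg (fun A : Mat n => (A * (h e z)⁻¹ * M.ric h e z).trace.re)
      (Matrix.nonsing_inv_mul_cancel_left _ _ (hh.det_ne e he z hz).isUnit))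
  have F0 : ∀ x, 0 ≤ M.ip h (fun e z => h e z * Q e z) (M.ric h) x := fun x => by
    rw [r3.eq_ev]
    exact AllOn.ch h0 x
  rw [← r3.eq_ev] at hm
  generalize M.ip h (fun e z => h e z * Q e z) (M.ric h) = F at r2 r3 hm F0
  obtain ⟨-, hfin, hop, -, hint, -, hmu⟩ := mMU n M H hK.toMet
  obtain ⟨D, hD, hP, -⟩ := mPSH n M H C hK.toMet
  obtain ⟨B, hB, bB⟩ := r2.exists_bound
  have hC : 0 < C := zero_lt_one.trans_le hs.one
  have iF := hint ℝ F r2.continuous
  have key : ∀ A : ℝ, 0 < A → ∀ δ : ℝ, 0 < δ →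
      ∫ x, F x ∂M.mu H ≤ Real.exp A * (C * δ) + B / A * D := fun A hA δ hδ => by
    obtain ⟨i, hi⟩ := (hm δ hδ).exists
    have gm := (hs.kae i).toMet
    have v1 : 0 < M.vv (g i) := (mMU n M _ gm).2.2.2.1
    have iφ : Integrable (fun x => -φ i x) (M.mu H) := hint ℝ _ (hs.sm i).neg.continuous
    have iq := hint ℝ _ (((mINV n M H hK.toMet).1 _ gm.toTen).2.2.2.1.mul r2).continuous
    have a1 : ∫ x, F x ∂M.mu H ≤ ∫ x, (Real.exp A * (C / M.vv (g i) * (M.dq H (g i) x * F x)) +
        B / A * -φ i x) ∂M.mu H := by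
      refine integral_mono iF (((iq.const_mul _).const_mul _).add (iφ.const_mul _)) fun x => ?_
      refine (ptw (F0 x) ((le_abs_self _).trans (bB x)) (hs.np i x) hA).trans
        (add_le_add (mul_le_mul_of_nonneg_left ?_ (Real.exp_pos A).le) le_rfl)
      rw [← mul_assoc]
      refine mul_le_mul_of_nonneg_right ?_ (F0 x)
      rw [div_mul_eq_mul_div, le_div_iff₀ v1]
      exact hs.low i x
    rw [integral_add ((iq.const_mul _).const_mul _) (iφ.const_mul _), integral_const_mul,
      integral_const_mul, integral_const_mul, integral_neg, ← (hmu _ gm).2.1] at a1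
    have a2 := hP _ (hs.sm i) (hs.le i) (hs.np i) (hs.zer i)
    refine a1.trans (add_le_add (mul_le_mul_of_nonneg_left ?_ (Real.exp_pos A).le)
      (mul_le_mul_of_nonneg_left (by linarith) (by positivity)))
    rw [div_mul_eq_mul_div, mul_div_assoc]
    exact mul_le_mul_of_nonneg_left hi hC.le
  have z0 : ∫ x, F x ∂M.mu H = 0 := by
    refine le_antisymm (le_of_forall_pos_le_add fun η hη => ?_) (integral_nonneg F0)
    have hA : 0 < 2 * B * D / η := by positivity
    refine (key _ hA (η / 2 / (Real.exp (2 * B * D / η) * C)) (by positivity)).trans_eq ?_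
    field_simp
    ring
  have z1 : F = 0 := (r2.continuous.ae_eq_iff_eq (M.mu H) continuous_zero).1
    ((integral_eq_zero_iff_of_nonneg F0 iF).1 z0)
  intro e he z hz
  have := r3 e he z hz
  rw [z1] at this
  exact this.symm

end T10

end Pool.Agent.Lib.TB
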